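import Pool.Agent.P.MP_c12391_an.Main

set_option autoImplicit false

open Pool.Agent.P.MP_c12391_an

namespace Pool.Agent.Results.MP_c12391_an.Counterexample

/-- For the Euclidean spaces `X n` of dimension `n + 1` (`n ∈ ℕ`), the origin is an almost
preserved extreme point of the closed unit ball of their `ℓ₁`-sum, but of none of the closed unit
balls of the `X n`. -/
theorem result :
    ZeroIsAPEP (lp (fun n : ℕ => EuclideanSpace ℝ (Fin (n + 1))) 1) ∧
      ∀ n : ℕ, ¬ ZeroIsAPEP (EuclideanSpace ℝ (Fin (n + 1))) :=
  ⟨apep, not_apep⟩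

end Pool.Agent.Results.MP_c12391_an.Counterexample
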