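import Pool.Agent.P.MP_c12391_an.R.Range

set_option autoImplicit false

open Pool.Agent.P.MP_c12391_an

universe u v

namespace Pool.Agent.Results.MP_c12391_an.RenormRange

/-- A family of renormings of `Y`, pairwise isomorphic with distortion at most `c`, for which the
origin is an almost preserved extreme point of the ball of the `ℓ₁`-sum but of the ball of no
summand exists exactly when `Y` is infinite-dimensional and `c > 1`. -/
theorem result (I : Type u) [Infinite I] (Y : Type v) [NormedAddCommGroup Y] [NormedSpace ℝ Y]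
    (c : ℝ) :
    (∃ (X : I → Type v) (_ : ∀ i, NormedAddCommGroup (X i)) (_ : ∀ i, NormedSpace ℝ (X i)),
      (∀ i, Nonempty (X i ≃L[ℝ] Y)) ∧
      (∀ i j, ∃ T : X i ≃L[ℝ] X j, ‖(T : X i →L[ℝ] X j)‖ * ‖(T.symm : X j →L[ℝ] X i)‖ ≤ c) ∧
      ZeroIsAPEP (lp X 1) ∧ ∀ i, ¬ ZeroIsAPEP (X i)) ↔ ¬ FiniteDimensional ℝ Y ∧ 1 < c :=
  ⟨fun ⟨X, _, _, h1, h2, h3, h4⟩ => R.necessary X h1 h2 h3 h4, fun h => R.sufficient I h.1 h.2⟩

end Pool.Agent.Results.MP_c12391_an.RenormRange
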